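import Pool.Agent.Helper90.SH.FSDefs

/-!
# MP_506470_co : module FSj, the two options in the monotone case
-/

namespace SetHom
namespace FS

variable {V : Type*} {G : SimpleGraph V} {K : List V → Prop}

/-- the vertex `v` has trace `1100` on the good list `[a, b, c, d]`. -/
def fsj_W (G : SimpleGraph V) (K : List V → Prop) (a b c d v : V) : Prop :=
  K [a, b, c, d] ∧ G.Adj v a ∧ G.Adj v b ∧ ¬ G.Adj v c ∧ ¬ G.Adj v d

theorem fsj_uq3 (hu : UQ K) {x y z : V} (h : K [x, y, z]) {l : List V} (hl : K l)
    (hp : l.Perm [x, y, z]) : l = [x, y, z] ∨ l = [z, y, x] := by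
  have := hu _ _ h hl hp (by simp)
  simpa using this

theorem fsj_nodup (hm : MC G K) {a b c d v : V} (h : fsj_W G K a b c d v) :
    [a, b, c, d, v].Nodup := by
  obtain ⟨hk, va, vb, vc, vd⟩ := h
  have hnd := hm.gl.nodup _ hk
  have hind := hm.gl.ind _ hk
  have h1 : a ≠ v := fun e => G.irrefl (e ▸ va)
  have h2 : b ≠ v := fun e => G.irrefl (e ▸ vb)
  have h3 : c ≠ v := by
    rintro rfl
    exact hind c (by simp) a (by simp) va
  have h4 : d ≠ v := by
    rintro rfl
    exact hind d (by simp) a (by simp) va
  simp only [List.nodup_cons, List.mem_cons, List.not_mem_nil, or_false, not_or,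
    not_false_eq_true, List.nodup_nil, and_true] at hnd ⊢
  tauto

theorem fsj_equiv (hm : MC G K) {a b c d v a' b' c' d' v' : V} (h : fsj_W G K a b c d v)
    (h' : fsj_W G K a' b' c' d' v') :
    ∃ φ : G ≃g G, φ a = a' ∧ φ b = b' ∧ φ c = c' ∧ φ d = d' ∧ φ v = v' := by
  have hnd := fsj_nodup hm h
  have hnd' := fsj_nodup hm h'
  obtain ⟨hk, va, vb, vc, vd⟩ := h
  obtain ⟨hk', va', vb', vc', vd'⟩ := h'
  have hi := hm.gl.ind _ hk
  have hi' := hm.gl.ind _ hk'
  obtain ⟨φ, hφ⟩ := sh_list hm.sh [a, b, c, d, v] [a', b', c', d', v'] hnd hnd' rfl (by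
    have iab := hi a (by simp) b (by simp)
    have iac := hi a (by simp) c (by simp)
    have iad := hi a (by simp) d (by simp)
    have ibc := hi b (by simp) c (by simp)
    have ibd := hi b (by simp) d (by simp)
    have icd := hi c (by simp) d (by simp)
    have iab' := hi' a' (by simp) b' (by simp)
    have iac' := hi' a' (by simp) c' (by simp)
    have iad' := hi' a' (by simp) d' (by simp)
    have ibc' := hi' b' (by simp) c' (by simp)
    have ibd' := hi' b' (by simp) d' (by simp)
    have icd' := hi' c' (by simp) d' (by simp)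
    have jab := hi b (by simp) a (by simp)
    have jac := hi c (by simp) a (by simp)
    have jad := hi d (by simp) a (by simp)
    have jbc := hi c (by simp) b (by simp)
    have jbd := hi d (by simp) b (by simp)
    have jcd := hi d (by simp) c (by simp)
    have jab' := hi' b' (by simp) a' (by simp)
    have jac' := hi' c' (by simp) a' (by simp)
    have jad' := hi' d' (by simp) a' (by simp)
    have jbc' := hi' c' (by simp) b' (by simp)
    have jbd' := hi' d' (by simp) b' (by simp)
    have jcd' := hi' d' (by simp) c' (by simp)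
    have wc : ¬ G.Adj c v := fun e => vc e.symm
    have wd : ¬ G.Adj d v := fun e => vd e.symm
    have wc' : ¬ G.Adj c' v' := fun e => vc' e.symm
    have wd' : ¬ G.Adj d' v' := fun e => vd' e.symm
    have wa := va.symm
    have wb := vb.symm
    have wa' := va'.symm
    have wb' := vb'.symm
    intro i h₁ h₂ j h₃ h₄
    simp only [List.length_cons, List.length_nil] at h₁ h₂ h₃ h₄
    interval_cases i <;> interval_cases j <;>
      simp only [List.getElem_cons_zero, List.getElem_cons_succ, SimpleGraph.irrefl] <;>
      tauto)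
  have memv : φ v ∈ [a', b', c', d', v'] := (hφ v).2 (by simp)
  have mema : φ a ∈ [a', b', c', d', v'] := (hφ a).2 (by simp)
  have memb : φ b ∈ [a', b', c', d', v'] := (hφ b).2 (by simp)
  have memc : φ c ∈ [a', b', c', d', v'] := (hφ c).2 (by simp)
  have memd : φ d ∈ [a', b', c', d', v'] := (hφ d).2 (by simp)
  have adva : G.Adj (φ v) (φ a) := φ.map_rel_iff.2 va
  have advb : G.Adj (φ v) (φ b) := φ.map_rel_iff.2 vb
  have hne : φ a ≠ φ b := by
    intro e
    have := φ.injective e
    subst this
    simp at hnd
  -- a vertex of the list, adjacent to an element of the good list, is `v'`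
  have key : ∀ z w, z ∈ [a', b', c', d'] → w ∈ [a', b', c', d', v'] → G.Adj z w → w = v' := by
    intro z w hz hw hzw
    by_contra hwv
    have hw' : w ∈ [a', b', c', d'] := by
      simp only [List.mem_cons, List.not_mem_nil, or_false] at hw ⊢
      tauto
    exact hi' z hz w hw' hzw
  have hv : φ v = v' := by
    by_contra hv
    have hz : φ v ∈ [a', b', c', d'] := by
      simp only [List.mem_cons, List.not_mem_nil, or_false] at memv ⊢
      tauto
    exact hne ((key _ _ hz mema adva).trans (key _ _ hz memb advb).symm)
  have hmem : ∀ x ∈ [a, b, c, d], φ x ∈ [a', b', c', d'] := by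
    intro x hx
    have h1 : φ x ∈ [a', b', c', d', v'] := (hφ x).2 (by
      simp only [List.mem_cons, List.not_mem_nil, or_false] at hx ⊢
      tauto)
    have h2 : φ x ≠ v' := by
      rw [← hv]
      intro e
      have := φ.injective e
      subst this
      simp only [List.nodup_cons, List.mem_cons, List.not_mem_nil, or_false, not_or] at hnd hx
      tauto
    simp only [List.mem_cons, List.not_mem_nil, or_false] at h1 ⊢
    tauto
  have hkm : K ([a, b, c, d].map φ) := hm.gl.img φ _ hk
  have hperm : ([a, b, c, d].map φ).Perm [a', b', c', d'] := by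
    refine List.Subperm.perm_of_length_le ?_ (by simp)
    refine List.subperm_of_subset (hm.gl.nodup _ hkm) ?_
    intro y hy
    obtain ⟨x, hx, rfl⟩ := List.mem_map.1 hy
    exact hmem x hx
  rcases hm.uq _ _ hk' hkm hperm (by simp) with h1 | h1
  · simp only [List.map_cons, List.map_nil, List.cons.injEq, and_true] at h1
    exact ⟨φ, h1.1, h1.2.1, h1.2.2.1, h1.2.2.2, hv⟩
  · exfalso
    simp only [List.map_cons, List.map_nil, List.reverse_cons, List.reverse_nil, List.nil_append,
      List.cons_append, List.cons.injEq, and_true] at h1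
    rw [hv, h1.1] at adva
    exact vd' adva

theorem fsj_exists (hm : MC G K) : ∃ a b c d v, fsj_W G K a b c d v := by
  obtain ⟨l, hl, hlen⟩ := hm.gl.long 4
  match l, hlen with
  | [a, b, c, d], _ =>
    obtain ⟨v, h1, h2⟩ := hm.init [a, b] [c, d] hl
    exact ⟨a, b, c, d, v, hl, h1 a (by simp), h1 b (by simp), (h2 c (by simp)).2,
      (h2 d (by simp)).2⟩

theorem fsj_three (hm : MC G K) {a b c d v : V} (h : fsj_W G K a b c d v) :
    K [v, c, d] ∨ K [c, v, d] ∨ K [c, d, v] := by
  have hnd := fsj_nodup hm h
  obtain ⟨hk, va, vb, vc, vd⟩ := h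
  have hcd : K [c, d] := hm.gl.sub _ _ hk (by
    exact ((List.Sublist.refl [c, d]).cons b).cons a)
  obtain ⟨p, q, hpq, hkk⟩ := hm.ins [c, d] v hcd (by simp) (by
    simp only [List.nodup_cons, List.mem_cons, List.not_mem_nil, or_false, not_or] at hnd ⊢
    exact ⟨fun e => hnd.2.2.1.2 e.symm, fun e => hnd.2.2.2.1 e.symm⟩) (by
    intro x hx
    simp only [List.mem_cons, List.not_mem_nil, or_false] at hx
    rcases hx with rfl | rfl <;> assumption)
  match p, hpq, hkk with
  | [], hpq, hkk =>
    left
    simp only [List.nil_append] at hpq hkk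
    rw [hpq]; exact hkk
  | [y], hpq, hkk =>
    right; left
    simp only [List.cons_append, List.nil_append, List.cons.injEq] at hpq hkk
    obtain ⟨rfl, rfl⟩ := hpq
    exact hkk
  | [y, z], hpq, hkk =>
    right; right
    simp only [List.cons_append, List.nil_append, List.cons.injEq, List.nil_eq] at hpq hkk
    obtain ⟨rfl, rfl, rfl⟩ := hpq
    exact hkk
  | y :: z :: w :: p', hpq, hkk =>
    exfalso
    have := congrArg List.length hpq
    simp only [List.length_cons, List.length_nil, List.length_append] at this
    omega

theorem opt (hm : MC G K) : Opt1 G K ∨ Opt2 G K := by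
  rcases hm.rev with hrev | hnf
  swap
  · left
    intro l₁ l₂ v hk hne hlen h1 h2
    obtain ⟨x₁, l₁', rfl⟩ := List.exists_cons_of_ne_nil hne
    have hk2 : K l₂ := hm.gl.sub _ _ hk (List.sublist_append_right _ _)
    have hind := hm.gl.ind _ hk
    have hvn : v ∉ l₂ := fun hv =>
      hind v (by simp [hv]) x₁ (by simp) (h1 x₁ (by simp))
    obtain ⟨p, q, hpq, hkk⟩ := hm.ins l₂ v hk2 hlen hvn h2
    match p, hpq, hkk with
    | [], hpq, hkk =>
      simp only [List.nil_append] at hpq hkk
      rw [hpq]; exact hkk
    | y :: p', hpq, hkk =>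
      exfalso
      have hyv : K [y, v] := by
        refine hm.gl.sub _ _ hkk ?_
        simp only [List.cons_append]
        refine List.Sublist.cons_cons _ ?_
        refine List.Sublist.trans ?_ (List.sublist_append_right p' _)
        exact (List.nil_sublist q).cons_cons v
      have hy : y ∈ l₂ := by rw [hpq]; simp
      exact hind x₁ (by simp) y (by simp [hy]) (hnf y v x₁ hyv (h1 x₁ (by simp)).symm)
  -- the reversible case
  obtain ⟨a₀, b₀, c₀, d₀, v₀, h₀⟩ := fsj_exists hm
  have hW : ∀ {a b c d v : V}, fsj_W G K a b c d v → v ≠ c ∧ v ≠ d ∧ c ≠ d := by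
    intro a b c d v h
    have hnd := fsj_nodup hm h
    simp only [List.nodup_cons, List.mem_cons, List.not_mem_nil, or_false, not_or] at hnd
    exact ⟨fun e => hnd.2.2.1.2 e.symm, fun e => hnd.2.2.2.1 e.symm, hnd.2.2.1.1⟩
  rcases fsj_three hm h₀ with hA | hA | hA
  · -- option 1
    left
    have A : ∀ a b c d v, fsj_W G K a b c d v → K [v, c, d] := by
      intro a b c d v h
      obtain ⟨φ, h1, h2, h3, h4, h5⟩ := fsj_equiv hm h₀ h
      have := hm.gl.img φ _ hA
      simpa [h3, h4, h5] using this
    intro l₁ l₂ v hk hne hlen h1 h2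
    obtain ⟨x₁, l₁', rfl⟩ := List.exists_cons_of_ne_nil hne
    have hk2 : K l₂ := hm.gl.sub _ _ hk (List.sublist_append_right _ _)
    have hind := hm.gl.ind _ hk
    have hvn : v ∉ l₂ := fun hv =>
      hind v (by simp [hv]) x₁ (by simp) (h1 x₁ (by simp))
    have B : ∀ y y', [y, y'].Sublist l₂ → K [v, y, y'] := by
      intro y y' hs
      have hy : y ∈ l₂ := hs.subset (by simp)
      have hy' : y' ∈ l₂ := hs.subset (by simp)
      match l₁', hk, h1 with
      | x₂ :: l₁'', hk, h1 =>
        refine A x₁ x₂ y y' v ⟨hm.gl.sub _ _ hk ?_, h1 _ (by simp), h1 _ (by simp), h2 _ hy,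
          h2 _ hy'⟩
        simp only [List.cons_append]
        exact ((hs.trans (List.sublist_append_right l₁'' _)).cons_cons x₂).cons_cons x₁
      | [], hk, h1 =>
        obtain ⟨m, hmlen, hkm⟩ := hm.gl.ins (a := []) (b := [x₁] ++ l₂) hk 1
        obtain ⟨x₀, rfl⟩ := List.length_eq_one_iff.1 hmlen
        simp only [List.nil_append, List.cons_append] at hkm
        have h4 : K [x₀, x₁, y, y'] := hm.gl.sub _ _ hkm ((hs.cons_cons x₁).cons_cons x₀)
        have h3 : K [x₀, x₁, y] := hm.gl.sub _ _ h4 (by
          exact (((List.nil_sublist [y']).cons_cons y).cons_cons x₁).cons_cons x₀)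
        have hx0 : G.Adj v x₀ := by
          by_contra hc
          exact (hm.mono _ _ _ v h3).2 ⟨hc, h1 _ (by simp), h2 _ hy⟩
        exact A x₀ x₁ y y' v ⟨h4, hx0, h1 _ (by simp), h2 _ hy, h2 _ hy'⟩
    obtain ⟨p, q, hpq, hkk⟩ := hm.ins l₂ v hk2 hlen hvn h2
    have hnd2 := hm.gl.nodup _ hk2
    match p, hpq, hkk with
    | [], hpq, hkk =>
      simp only [List.nil_append] at hpq hkk
      rw [hpq]; exact hkk
    | y :: y' :: p', hpq, hkk =>
      exfalso
      have hs : [y, y'].Sublist l₂ := by
        rw [hpq]
        simp only [List.cons_append]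
        exact ((List.nil_sublist _).cons_cons y').cons_cons y
      have hk3 := B y y' hs
      have hk4 : K [y, y', v] := by
        refine hm.gl.sub _ _ hkk ?_
        simp only [List.cons_append]
        refine List.Sublist.cons_cons _ (List.Sublist.cons_cons _ ?_)
        refine List.Sublist.trans ?_ (List.sublist_append_right p' _)
        exact (List.nil_sublist q).cons_cons v
      have hnd := hm.gl.nodup _ hk4
      have hp : [y, y', v].Perm [v, y, y'] := by
        rw [List.perm_ext_iff_of_nodup hnd (hm.gl.nodup _ hk3)]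
        intro x
        simp only [List.mem_cons, List.not_mem_nil, or_false]
        tauto
      simp only [List.nodup_cons, List.mem_cons, List.not_mem_nil, or_false, not_or] at hnd
      rcases fsj_uq3 hm.uq hk3 hk4 hp with h | h
      · simp only [List.cons.injEq] at h
        exact hnd.1.2 h.1
      · simp only [List.cons.injEq] at h
        exact hnd.1.1 h.1
    | [y], hpq, hkk =>
      exfalso
      match q, hpq, hkk with
      | [], hpq, hkk =>
        rw [hpq] at hlen
        simp at hlen
      | y' :: q', hpq, hkk =>
        have hs : [y, y'].Sublist l₂ := by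
          rw [hpq]
          simp only [List.cons_append, List.nil_append]
          exact ((List.nil_sublist _).cons_cons y').cons_cons y
        have hk3 := B y y' hs
        have hk4 : K [y, v, y'] := by
          refine hm.gl.sub _ _ hkk ?_
          simp only [List.cons_append, List.nil_append]
          exact (((List.nil_sublist _).cons_cons y').cons_cons v).cons_cons y
        have hnd := hm.gl.nodup _ hk4
        have hp : [y, v, y'].Perm [v, y, y'] := by
          rw [List.perm_ext_iff_of_nodup hnd (hm.gl.nodup _ hk3)]
          intro x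
          simp only [List.mem_cons, List.not_mem_nil, or_false]
          tauto
        simp only [List.nodup_cons, List.mem_cons, List.not_mem_nil, or_false, not_or] at hnd
        rcases fsj_uq3 hm.uq hk3 hk4 hp with h | h
        · simp only [List.cons.injEq] at h
          exact hnd.1.1 h.1
        · simp only [List.cons.injEq] at h
          exact hnd.1.2 h.1
  · -- impossible
    exfalso
    have A : ∀ a b c d v, fsj_W G K a b c d v → K [c, v, d] := by
      intro a b c d v h
      obtain ⟨φ, h1, h2, h3, h4, h5⟩ := fsj_equiv hm h₀ h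
      have := hm.gl.img φ _ hA
      simpa [h3, h4, h5] using this
    obtain ⟨l, hl, hlen⟩ := hm.gl.long 5
    match l, hlen with
    | [a, b, c, d, e], _ =>
      obtain ⟨v, h1, h2⟩ := hm.init [a, b] [c, d, e] hl
      have va := h1 a (by simp)
      have vb := h1 b (by simp)
      have vc := h2 c (by simp)
      have vd := h2 d (by simp)
      have ve := h2 e (by simp)
      have k1 : K [a, b, c, d] := hm.gl.sub _ _ hl
        (((((List.nil_sublist [e]).cons_cons d).cons_cons c).cons_cons b).cons_cons a)
      have k2 : K [a, b, d, e] := hm.gl.sub _ _ hl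
        ((((List.Sublist.refl [d, e]).cons c).cons_cons b).cons_cons a)
      have c1 : K [c, v, d] := A a b c d v ⟨k1, va, vb, vc.2, vd.2⟩
      have c2 : K [d, v, e] := A a b d e v ⟨k2, va, vb, vd.2, ve.2⟩
      have k3 : K [c, d, e] := hm.gl.sub _ _ hl
        (((List.Sublist.refl [c, d, e]).cons b).cons a)
      have hnd1 := hm.gl.nodup _ c1
      have hnd2 := hm.gl.nodup _ c2
      have hnd3 := hm.gl.nodup _ k3
      simp only [List.nodup_cons, List.mem_cons, List.not_mem_nil, or_false, not_or] at hnd1 hnd2 hnd3
      have bad1 : ¬ K [v, c, d] := by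
        intro hk
        have hp : [v, c, d].Perm [c, v, d] := List.Perm.swap c v [d]
        rcases fsj_uq3 hm.uq c1 hk hp with h | h
        · simp only [List.cons.injEq] at h
          exact hnd1.1.1 h.1.symm
        · simp only [List.cons.injEq] at h
          exact hnd1.2.1 h.1
      have bad2 : ¬ K [v, d, e] := by
        intro hk
        have hp : [v, d, e].Perm [d, v, e] := List.Perm.swap d v [e]
        rcases fsj_uq3 hm.uq c2 hk hp with h | h
        · simp only [List.cons.injEq] at h
          exact hnd2.1.1 h.1.symm
        · simp only [List.cons.injEq] at h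
          exact hnd2.2.1 h.1
      have bad3 : ¬ K [c, d, v] := by
        intro hk
        have hp : [c, d, v].Perm [c, v, d] := (List.Perm.swap v d []).cons c
        rcases fsj_uq3 hm.uq c1 hk hp with h | h
        · simp only [List.cons.injEq] at h
          exact hnd1.2.1 h.2.1.symm
        · simp only [List.cons.injEq] at h
          exact hnd1.1.2 h.1
      obtain ⟨p, q, hpq, hkk⟩ := hm.ins [c, d, e] v k3 (by simp) (by
        simp only [List.mem_cons, List.not_mem_nil, or_false, not_or]
        exact ⟨vc.1, vd.1, ve.1⟩) (by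
        intro x hx
        exact (h2 x hx).2)
      match p, hpq, hkk with
      | [], hpq, hkk =>
        simp only [List.nil_append] at hpq hkk
        subst hpq
        exact bad1 (hm.gl.sub _ _ hkk (((List.nil_sublist [e]).cons_cons d).cons_cons c |>.cons_cons v))
      | [y], hpq, hkk =>
        simp only [List.cons_append, List.nil_append, List.cons.injEq] at hpq hkk
        obtain ⟨rfl, rfl⟩ := hpq
        exact bad2 (hm.gl.sub _ _ hkk ((List.Sublist.refl [v, d, e]).cons _))
      | [y, z], hpq, hkk =>
        simp only [List.cons_append, List.nil_append, List.cons.injEq] at hpq hkk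
        obtain ⟨rfl, rfl, rfl⟩ := hpq
        exact bad3 (hm.gl.sub _ _ hkk ((((List.nil_sublist [e]).cons_cons v).cons_cons _).cons_cons _))
      | [y, z, w], hpq, hkk =>
        simp only [List.cons_append, List.nil_append, List.cons.injEq, List.nil_eq] at hpq hkk
        obtain ⟨rfl, rfl, rfl, rfl⟩ := hpq
        exact bad3 (hm.gl.sub _ _ hkk ((((List.Sublist.refl [v]).cons _).cons_cons _).cons_cons _))
      | y :: z :: w :: u :: p', hpq, hkk =>
        have := congrArg List.length hpq
        simp only [List.length_cons, List.length_nil, List.length_append] at this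
        omega
  · -- option 2
    right
    refine ⟨hrev, ?_⟩
    intro a b c d v hk va vb vc vd
    obtain ⟨φ, h1, h2, h3, h4, h5⟩ := fsj_equiv hm h₀ ⟨hk, va, vb, vc, vd⟩
    have := hm.gl.img φ _ hA
    simpa [h3, h4, h5] using this

end FS
end SetHom
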